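import Pool.Agent.Lib.MP_2e793b_nt.Iface

/-!
MP_2e793b_nt, module UNB: an unbounded letter grows at least linearly.
-/

set_option autoImplicit false

namespace Pool.Agent.Lib.MP_2e793b_nt.H04

open Finset
open scoped Classical

variable {k : ℕ} {σ : Fin k → List (Fin k)}

theorem iter_append (n : ℕ) (u v : List (Fin k)) :
    (F σ)^[n] (u ++ v) = (F σ)^[n] u ++ (F σ)^[n] v := by
  induction n generalizing u v with
  | zero => rfl
  | succ n ih =>
    rw [Function.iterate_succ_apply, Function.iterate_succ_apply, Function.iterate_succ_apply, ← ih]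
    show (F σ)^[n] ((u ++ v).flatMap σ) = (F σ)^[n] (u.flatMap σ ++ v.flatMap σ)
    rw [List.flatMap_append]

theorem iter_nil (n : ℕ) : (F σ)^[n] [] = [] := by
  induction n with
  | zero => rfl
  | succ n ih => rw [Function.iterate_succ_apply]; exact ih

theorem iter_cons (n : ℕ) (a : Fin k) (v : List (Fin k)) :
    (F σ)^[n] (a :: v) = (F σ)^[n] [a] ++ (F σ)^[n] v := by
  rw [← iter_append]; rfl

theorem iter_succ_single (n : ℕ) (a : Fin k) : (F σ)^[n + 1] [a] = (F σ)^[n] (σ a) := by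
  rw [Function.iterate_succ_apply]
  congr 1
  show [a].flatMap σ = σ a
  simp

/-- a letter is mortal if some iterated image is empty -/
def Mort (σ : Fin k → List (Fin k)) (y : Fin k) : Prop := ∃ N : ℕ, (F σ)^[N] [y] = []

theorem dead_of_le {N n : ℕ} {v : List (Fin k)} (h : (F σ)^[N] v = []) (hn : N ≤ n) :
    (F σ)^[n] v = [] := by
  obtain ⟨m, rfl⟩ := Nat.exists_eq_add_of_le hn
  rw [Nat.add_comm, Function.iterate_add_apply, h, iter_nil]

theorem mort_word {v : List (Fin k)} (h : ∀ y ∈ v, Mort σ y) : ∃ N : ℕ, (F σ)^[N] v = [] := by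
  induction v with
  | nil => exact ⟨0, rfl⟩
  | cons a v ih =>
    obtain ⟨N, hN⟩ := ih (fun y hy => h y (List.mem_cons_of_mem _ hy))
    obtain ⟨M, hM⟩ := h a List.mem_cons_self
    refine ⟨N + M, ?_⟩
    rw [iter_cons, dead_of_le hN (Nat.le_add_right _ _), dead_of_le hM (Nat.le_add_left _ _)]
    rfl

theorem dead_letter {N : ℕ} {v : List (Fin k)} (h : (F σ)^[N] v = []) {z : Fin k} (hz : z ∈ v) :
    (F σ)^[N] [z] = [] := by
  obtain ⟨s, t, rfl⟩ := List.append_of_mem hz
  rw [iter_append, iter_cons] at h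
  have := List.append_eq_nil_iff.1 h
  exact (List.append_eq_nil_iff.1 this.2).1

theorem mort_step {y : Fin k} (h : Mort σ y) : ∀ z ∈ σ y, Mort σ z := by
  intro z hz
  obtain ⟨N, hN⟩ := h
  cases N with
  | zero => exact absurd hN (by simp)
  | succ N =>
    rw [iter_succ_single] at hN
    exact ⟨N, dead_letter hN hz⟩

theorem mort_iff_step {y : Fin k} : Mort σ y ↔ ∀ z ∈ σ y, Mort σ z := by
  refine ⟨mort_step, fun h => ?_⟩
  obtain ⟨N, hN⟩ := mort_word h
  exact ⟨N + 1, by rw [iter_succ_single]; exact hN⟩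

/-- the number of immortal letters -/
noncomputable def imm (σ : Fin k → List (Fin k)) (v : List (Fin k)) : ℕ :=
  v.countP (fun y => decide (¬ Mort σ y))

theorem imm_append (u v : List (Fin k)) : imm σ (u ++ v) = imm σ u + imm σ v :=
  List.countP_append

theorem imm_nil : imm σ [] = 0 := rfl

theorem imm_cons (a : Fin k) (v : List (Fin k)) : imm σ (a :: v) = imm σ [a] + imm σ v := by
  rw [← imm_append]; rfl

theorem imm_single_mort {a : Fin k} (h : Mort σ a) : imm σ [a] = 0 := by
  simp [imm, h]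

theorem imm_single_imm {a : Fin k} (h : ¬ Mort σ a) : imm σ [a] = 1 := by
  simp [imm, h]

theorem imm_of_mort {v : List (Fin k)} (h : ∀ y ∈ v, Mort σ y) : imm σ v = 0 := by
  rw [imm, List.countP_eq_zero]
  intro a ha
  simpa using h a ha

theorem imm_le_length (v : List (Fin k)) : imm σ v ≤ v.length := List.countP_le_length

theorem imm_step_single (a : Fin k) : imm σ [a] ≤ imm σ (σ a) := by
  by_cases h : Mort σ a
  · rw [imm_single_mort h]; exact Nat.zero_le _
  · rw [imm_single_imm h]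
    have h' : ¬ ∀ z ∈ σ a, Mort σ z := fun h2 => h (mort_iff_step.2 h2)
    push Not at h'
    obtain ⟨z, hz, hm⟩ := h'
    show 0 < _
    rw [imm, List.countP_pos_iff]
    exact ⟨z, hz, by simpa using hm⟩

theorem imm_step (v : List (Fin k)) : imm σ v ≤ imm σ (F σ v) := by
  induction v with
  | nil => exact Nat.zero_le _
  | cons a v ih =>
    have e : F σ (a :: v) = σ a ++ F σ v := by
      show (a :: v).flatMap σ = σ a ++ v.flatMap σ
      rw [List.flatMap_cons]
    rw [e, imm_append, imm_cons]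
    exact Nat.add_le_add (imm_step_single a) ih

theorem imm_iter_le (v : List (Fin k)) (n : ℕ) : imm σ v ≤ imm σ ((F σ)^[n] v) := by
  induction n generalizing v with
  | zero => exact le_rfl
  | succ n ih =>
    rw [Function.iterate_succ_apply]
    exact (imm_step v).trans (ih _)

theorem imm_mono (v : List (Fin k)) {m n : ℕ} (h : m ≤ n) :
    imm σ ((F σ)^[m] v) ≤ imm σ ((F σ)^[n] v) := by
  obtain ⟨d, rfl⟩ := Nat.exists_eq_add_of_le h
  rw [Nat.add_comm, Function.iterate_add_apply]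
  exact imm_iter_le _ _

theorem mort_iter {v : List (Fin k)} (h : ∀ y ∈ v, Mort σ y) (n : ℕ) :
    ∀ y ∈ (F σ)^[n] v, Mort σ y := by
  induction n generalizing v with
  | zero => exact h
  | succ n ih =>
    rw [Function.iterate_succ_apply]
    apply ih
    intro y hy
    have hy' : y ∈ v.flatMap σ := hy
    rw [List.mem_flatMap] at hy'
    obtain ⟨a, ha, hya⟩ := hy'
    exact mort_step (h a ha) y hya

theorem split_one {v : List (Fin k)} (h : imm σ v = 1) :
    ∃ (s : List (Fin k)) (z : Fin k) (t : List (Fin k)), v = s ++ z :: t ∧ ¬ Mort σ z ∧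
      (∀ y ∈ s, Mort σ y) ∧ ∀ y ∈ t, Mort σ y := by
  have h0 : 0 < imm σ v := by omega
  rw [imm, List.countP_pos_iff] at h0
  obtain ⟨z, hz, hm⟩ := h0
  have hm' : ¬ Mort σ z := by simpa using hm
  obtain ⟨s, t, rfl⟩ := List.append_of_mem hz
  rw [imm_append, imm_cons, imm_single_imm hm'] at h
  have hs : imm σ s = 0 := by omega
  have ht : imm σ t = 0 := by omega
  rw [imm, List.countP_eq_zero] at hs ht
  exact ⟨s, z, t, rfl, hm', fun y hy => by simpa using hs y hy, fun y hy => by simpa using ht y hy⟩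

theorem bdd_word {v : List (Fin k)} (h : ∀ z ∈ v, Bdd σ z) :
    ∃ B : ℕ, ∀ n : ℕ, ((F σ)^[n] v).length ≤ B := by
  induction v with
  | nil => exact ⟨0, fun n => by rw [iter_nil]; exact le_rfl⟩
  | cons a v ih =>
    obtain ⟨B, hB⟩ := ih (fun y hy => h y (List.mem_cons_of_mem _ hy))
    obtain ⟨C, hC⟩ := h a List.mem_cons_self
    refine ⟨C + B, fun n => ?_⟩
    rw [iter_cons, List.length_append]
    exact Nat.add_le_add (hC n) (hB n)

theorem unb_step {y : Fin k} (h : ¬ Bdd σ y) : ∃ z ∈ σ y, ¬ Bdd σ z := by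
  by_contra hc
  push Not at hc
  obtain ⟨B, hB⟩ := bdd_word hc
  refine h ⟨B + 1, fun n => ?_⟩
  cases n with
  | zero => simp
  | succ n => rw [iter_succ_single]; exact (hB n).trans (Nat.le_succ _)

theorem unb_iter {v : List (Fin k)} (h : ∃ z ∈ v, ¬ Bdd σ z) (n : ℕ) :
    ∃ z ∈ (F σ)^[n] v, ¬ Bdd σ z := by
  induction n generalizing v with
  | zero => exact h
  | succ n ih =>
    rw [Function.iterate_succ_apply]
    apply ih
    obtain ⟨z, hz, hb⟩ := h
    obtain ⟨y, hy, hby⟩ := unb_step hb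
    exact ⟨y, List.mem_flatMap.2 ⟨z, hz, hy⟩, hby⟩

theorem not_mort_of_unb {y : Fin k} (h : ¬ Bdd σ y) : ¬ Mort σ y := by
  rintro ⟨N, hN⟩
  refine h ⟨∑ i ∈ range N, ((F σ)^[i] [y]).length, fun n => ?_⟩
  by_cases hn : n < N
  · exact Finset.single_le_sum (f := fun i => ((F σ)^[i] [y]).length) (fun _ _ => Nat.zero_le _)
      (mem_range.2 hn)
  · rw [dead_of_le hN (not_lt.1 hn)]; exact Nat.zero_le _

theorem exists_uniform : ∃ N : ℕ, ∀ y : Fin k, Mort σ y → (F σ)^[N] [y] = [] := by
  have : ∀ y : Fin k, ∃ N : ℕ, Mort σ y → (F σ)^[N] [y] = [] := by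
    intro y
    by_cases h : Mort σ y
    · obtain ⟨N, hN⟩ := h
      exact ⟨N, fun _ => hN⟩
    · exact ⟨0, fun h' => absurd h' h⟩
  choose N hN using this
  refine ⟨∑ y, N y, fun y hy => dead_of_le (hN y hy) ?_⟩
  exact Finset.single_le_sum (f := N) (fun _ _ => Nat.zero_le _) (mem_univ y)

theorem dead_word {N : ℕ} (hN : ∀ y : Fin k, Mort σ y → (F σ)^[N] [y] = []) {v : List (Fin k)}
    (h : ∀ y ∈ v, Mort σ y) : (F σ)^[N] v = [] := by
  induction v with
  | nil => exact iter_nil _
  | cons a v ih =>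
    rw [iter_cons, hN a (h a List.mem_cons_self), ih (fun y hy => h y (List.mem_cons_of_mem _ hy))]
    rfl

/-- the number of immortal letters of the images depends only on the immortal letter -/
theorem imm_split {s t : List (Fin k)} {z : Fin k} (hs : ∀ y ∈ s, Mort σ y)
    (ht : ∀ y ∈ t, Mort σ y) (m : ℕ) :
    imm σ ((F σ)^[m] (s ++ z :: t)) = imm σ ((F σ)^[m] [z]) := by
  rw [iter_append, iter_cons, imm_append, imm_append, imm_of_mort (mort_iter hs m),
    imm_of_mort (mort_iter ht m)]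
  omega

theorem two_le {y : Fin k} (h : ¬ Bdd σ y) : 2 ≤ imm σ ((F σ)^[k] [y]) := by
  by_contra hc
  have hy : ¬ Mort σ y := not_mort_of_unb h
  have h1 : ∀ n, 1 ≤ imm σ ((F σ)^[n] [y]) := fun n => by
    have := imm_iter_le (σ := σ) [y] n
    rwa [imm_single_imm hy] at this
  have hone : ∀ i : Fin (k + 1), ∃ z : Fin k, ∀ m : ℕ,
      imm σ ((F σ)^[m + i] [y]) = imm σ ((F σ)^[m] [z]) := by
    intro i
    have hi : imm σ ((F σ)^[(i : ℕ)] [y]) = 1 := by
      have a := h1 i
      have b := imm_mono (σ := σ) [y] (Nat.lt_succ_iff.1 i.2)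
      omega
    obtain ⟨s, z, t, e, -, hs, ht⟩ := split_one hi
    refine ⟨z, fun m => ?_⟩
    rw [Function.iterate_add_apply, e, imm_split hs ht]
  choose zf hzf using hone
  obtain ⟨i, j, hij, hz⟩ := Fintype.exists_ne_map_eq_of_card_lt zf (by simp)
  wlog hlt : i < j generalizing i j with H
  · exact H j i hij.symm hz.symm (lt_of_le_of_ne (not_lt.1 hlt) hij.symm)
  set c : ℕ → ℕ := fun m => imm σ ((F σ)^[m] [zf i]) with hcdef
  have hc1 : ∀ m, c m = imm σ ((F σ)^[m + i] [y]) := fun m => (hzf i m).symm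
  have hper : ∀ m, c (m + ((j : ℕ) - i)) = c m := by
    intro m
    have hlt' : (i : ℕ) < j := hlt
    rw [hc1, show m + ((j : ℕ) - i) + i = m + j by omega, hzf j m, ← hz]
  have hc0 : c 0 = 1 := by
    rw [hc1, Nat.zero_add]
    have a := h1 i
    have b := imm_mono (σ := σ) [y] (Nat.lt_succ_iff.1 i.2)
    omega
  have hct : ∀ t : ℕ, c (t * ((j : ℕ) - i)) = 1 := by
    intro t
    induction t with
    | zero => rw [Nat.zero_mul]; exact hc0
    | succ t ih => rw [Nat.succ_mul, hper]; exact ih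
  have hall : ∀ n, imm σ ((F σ)^[n] [y]) = 1 := by
    intro n
    apply le_antisymm _ (h1 n)
    calc imm σ ((F σ)^[n] [y]) ≤ imm σ ((F σ)^[n + i] [y]) := imm_mono _ (Nat.le_add_right _ _)
      _ = c n := (hc1 n).symm
      _ ≤ c (n * ((j : ℕ) - i)) := imm_mono _ (Nat.le_mul_of_pos_right _ (by
          have : (i : ℕ) < j := hlt
          omega))
      _ = 1 := hct n
  obtain ⟨N, hN⟩ := exists_uniform (σ := σ)
  refine h ⟨∑ n ∈ range N, ((F σ)^[n] [y]).length + ∑ z, ((F σ)^[N] [z]).length, fun n => ?_⟩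
  by_cases hn : n < N
  · exact (Finset.single_le_sum (f := fun i => ((F σ)^[i] [y]).length) (fun _ _ => Nat.zero_le _)
      (mem_range.2 hn)).trans (Nat.le_add_right _ _)
  · obtain ⟨m, rfl⟩ := Nat.exists_eq_add_of_le (not_lt.1 hn)
    obtain ⟨s, z, t, e, -, hs, ht⟩ := split_one (hall m)
    rw [Function.iterate_add_apply, e, iter_append, iter_cons, dead_word hN hs, dead_word hN ht,
      List.nil_append, List.append_nil]
    exact (Finset.single_le_sum (f := fun z => ((F σ)^[N] [z]).length) (fun _ _ => Nat.zero_le _)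
      (mem_univ z)).trans (Nat.le_add_left _ _)

theorem growth {x : Fin k} (h : ¬ Bdd σ x) (j : ℕ) : j + 1 ≤ imm σ ((F σ)^[j * k] [x]) := by
  induction j with
  | zero => rw [Nat.zero_mul]; exact (imm_single_imm (not_mort_of_unb h)).ge
  | succ j ih =>
    obtain ⟨z, hz, hb⟩ := unb_iter (σ := σ) ⟨x, List.mem_singleton.2 rfl, h⟩ (j * k)
    obtain ⟨s, t, e⟩ := List.append_of_mem hz
    rw [e, imm_append, imm_cons, imm_single_imm (not_mort_of_unb hb)] at ih
    rw [Nat.succ_mul, Nat.add_comm (j * k) k, Function.iterate_add_apply, e, iter_append, iter_cons,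
      imm_append, imm_append]
    have h1 := imm_iter_le (σ := σ) s k
    have h2 := imm_iter_le (σ := σ) t k
    have h3 := two_le hb
    omega

theorem unb : UnbStmt := by
  intro k σ x hx n
  have hk : 0 < k := Fin.pos x
  have h1 := growth hx (n / k)
  have h2 : imm σ ((F σ)^[n / k * k] [x]) ≤ imm σ ((F σ)^[n] [x]) :=
    imm_mono _ (Nat.div_mul_le_self n k)
  have h3 := imm_le_length (σ := σ) ((F σ)^[n] [x])
  calc n < k * (n / k + 1) := Nat.lt_mul_div_succ n hk
    _ ≤ k * ((F σ)^[n] [x]).length := Nat.mul_le_mul_left _ (by omega)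

end Pool.Agent.Lib.MP_2e793b_nt.H04
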